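import Pool.Agent.Helper75.KS.GoalsB

/-!
# FIN: the final statements for types
-/

namespace Pool.Agent.Helper9.KS

open Finset
open Pool.Agent.Helper75.KS
open Pool.Agent.Helper89.GP (LX po Ex Pr hh mem_LX Pr_def po_lt)

/-- The antichain, transported. -/
theorem anti_map {α : Type} [Fintype α] [PartialOrder α]
    (e : α ≃ Fin (Fintype.card α)) (R : Fin (Fintype.card α) → Fin (Fintype.card α) → Prop)
    (hR : ∀ a b, R (e a) (e b) ↔ a < b) {W : ℕ}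
    (h : ∃ s : Finset α, IsAntichain (· ≤ ·) (s : Set α) ∧ W ≤ s.card) :
    ∃ A : Finset (Fin (Fintype.card α)), W ≤ A.card ∧ ∀ a ∈ A, ∀ b ∈ A, ¬ R a b := by
  obtain ⟨s, hs, hW⟩ := h
  refine ⟨s.map e.toEmbedding, by rwa [card_map], ?_⟩
  intro a ha b hb hab
  rw [mem_map] at ha hb
  obtain ⟨x, hx, rfl⟩ := ha
  obtain ⟨y, hy, rfl⟩ := hb
  have hlt : x < y := (hR x y).1 hab
  exact hs hx hy hlt.ne hlt.le

theorem bal (h1 : TrfStmt) (h2 : KsfStmt) : BalStmt := by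
  classical
  intro ε hε
  obtain ⟨W, hW⟩ := h2 ε hε
  refine ⟨W, ?_⟩
  intro α _ _ hs
  obtain ⟨e, R, hspo, hR, k0, k1, -⟩ := h1 α
  obtain ⟨u', v', huv, hp⟩ := hW _ R hspo (anti_map e R hR hs)
  obtain ⟨u, rfl⟩ := e.surjective u'
  obtain ⟨v, rfl⟩ := e.surjective v'
  refine ⟨u, v, fun h => huv (congrArg e h), ?_⟩
  rw [k0, k1 u v]
  have h3 : (Pr R fun σ => po σ (e u) < po σ (e v)) =
      (((LX R).filter fun σ => σ (e u) < σ (e v)).card : ℝ) / (LX R).card := by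
    rw [Pr_def]
    rfl
  rw [h3] at hp
  exact hp

theorem gol (h1 : TrfStmt) (h3 : GpfStmt) : GolStmt := by
  classical
  obtain ⟨W, hW⟩ := h3
  refine ⟨W, ?_⟩
  intro α _ _ hs
  obtain ⟨e, R, hspo, hR, k0, k1, k2⟩ := h1 α
  obtain ⟨a', b', hab, hRab, hRba, h⟩ := hW _ R hspo (anti_map e R hR hs)
  obtain ⟨a, rfl⟩ := e.surjective a'
  obtain ⟨b, rfl⟩ := e.surjective b'
  have hab' : a ≠ b := fun h => hab (congrArg e h)
  refine ⟨a, b, fun hle => hRab ((hR a b).2 (lt_of_le_of_ne hle hab')),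
    fun hle => hRba ((hR b a).2 (lt_of_le_of_ne hle hab'.symm)), ?_⟩
  intro u v huv
  have huv' : (e u = e a ∧ e v = e b) ∨ (e u = e b ∧ e v = e a) := by
    rcases huv with ⟨rfl, rfl⟩ | ⟨rfl, rfl⟩
    · exact Or.inl ⟨rfl, rfl⟩
    · exact Or.inr ⟨rfl, rfl⟩
  obtain ⟨c', d', hcd, hc⟩ := h (e u) (e v) huv'
  obtain ⟨c, rfl⟩ := e.surjective c'
  obtain ⟨d, rfl⟩ := e.surjective d'
  refine ⟨c, d, fun h => hcd (congrArg e h), ?_⟩
  intro w z hwz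
  have hwz' : (e w = e c ∧ e z = e d) ∨ (e w = e d ∧ e z = e c) := by
    rcases hwz with ⟨rfl, rfl⟩ | ⟨rfl, rfl⟩
    · exact Or.inl ⟨rfl, rfl⟩
    · exact Or.inr ⟨rfl, rfl⟩
  have h4 := hc (e w) (e z) hwz'
  rw [k0, k1 u v, k2 u v w z]
  exact h4

/-- FIN. -/
theorem fin (h1 : TrfStmt) (h2 : KsfStmt) (h3 : GpfStmt) : FinStmt :=
  ⟨bal h1 h2, gol h1 h3⟩

end Pool.Agent.Helper9.KS
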